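import Mathlib

set_option autoImplicit false

namespace Pool.Agent.Results.MP_801c54_lc.Boards

open Set Cardinal

/-- the list of the first `n` moves of a play -/
def hist {M : Type} (f : ℕ → M) (n : ℕ) : List M := (List.range n).map f

/-- ONE has a winning strategy in the game with payoff `S` on the boards `K` -/
def OneWins (S : Set (ℕ → ℕ)) (K : Type) : Prop :=
  ∃ σ : List (K → ℕ) → K → ℕ, ∀ f : ℕ → K → ℕ, (∀ n, f (2 * n) = σ (hist f (2 * n))) →
    ∃ α, (fun n => f n α) ∈ S

/-- TWO has a winning strategy in the game with payoff `S` on the boards `K` -/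
def TwoWins (S : Set (ℕ → ℕ)) (K : Type) : Prop :=
  ∃ τ : List (K → ℕ) → K → ℕ, ∀ f : ℕ → K → ℕ,
    (∀ n, f (2 * n + 1) = τ (hist f (2 * n + 1))) → ¬ ∃ α, (fun n => f n α) ∈ S

def Determined (S : Set (ℕ → ℕ)) (K : Type) : Prop := OneWins S K ∨ TwoWins S K

theorem hist_len {M : Type} (f : ℕ → M) (n : ℕ) : (hist f n).length = n := by simp [hist]

theorem hist_getD {M : Type} (f : ℕ → M) (n j : ℕ) (d : M) :
    (hist f n).getD j d = if j < n then f j else d := by
  by_cases h : j < n <;> simp [hist, List.getD, h]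

theorem hist_succ {M : Type} (f : ℕ → M) (n : ℕ) : hist f (n + 1) = hist f n ++ [f n] := by
  simp [hist, List.range_succ]

theorem exists_play {M : Type} (g : List M → M) : ∃ f : ℕ → M, ∀ n, f n = g (hist f n) := by
  let H : ℕ → List M := fun n => Nat.rec [] (fun _ h => h ++ [g h]) n
  refine ⟨fun n => g (H n), fun n => congrArg g ?_⟩
  induction n with
  | zero => rfl
  | succ n ih => rw [hist_succ, ← ih]

theorem exists_play2 {M : Type} (σ τ : List M → M) : ∃ f : ℕ → M,
    (∀ n, f (2 * n) = σ (hist f (2 * n))) ∧ ∀ n, f (2 * n + 1) = τ (hist f (2 * n + 1)) := by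
  obtain ⟨f, hf⟩ := exists_play fun h => if h.length % 2 = 0 then σ h else τ h
  refine ⟨f, fun n => ?_, fun n => ?_⟩
  · rw [hf, hist_len, if_pos (by omega)]
  · rw [hf, hist_len, if_neg (by omega)]

theorem two_transfer {S : Set (ℕ → ℕ)} {K : Type} (k : K) (h : TwoWins S K) (K' : Type) :
    TwoWins S K' := by
  obtain ⟨τ, hτ⟩ := h
  choose F hF1 hF2 using fun a : ℕ → ℕ =>
    exists_play2 (fun h : List (K → ℕ) => fun _ => a (h.length / 2)) τ
  have h1 : ∀ a n, F a (2 * n) = fun _ => a n := fun a n => by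
    rw [hF1, hist_len]; simp
  have h2 : ∀ a a' n, (∀ m ≤ n, a m = a' m) → ∀ j ≤ 2 * n + 1, F a j = F a' j := by
    intro a a' n ha j
    induction j using Nat.strong_induction_on with
    | _ j ih =>
      intro hj
      obtain ⟨i, rfl | rfl⟩ := Nat.even_or_odd' j
      · rw [h1, h1, ha i (by omega)]
      · rw [hF2, hF2]
        exact congrArg τ (List.map_congr_left fun m hm =>
          ih m (List.mem_range.1 hm) (by have := List.mem_range.1 hm; omega))
  refine ⟨fun h α => F (fun m => h.getD (2 * m) 0 α) h.length k, fun f hf ⟨α, hα⟩ =>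
    hτ (F fun m => f (2 * m) α) (hF2 _) ⟨k, ?_⟩⟩
  convert hα using 2 with j
  obtain ⟨i, rfl | rfl⟩ := Nat.even_or_odd' j
  · rw [h1]
  · rw [hf]
    simp only [hist_len]
    refine congrFun (h2 _ _ i (fun m hm => ?_) _ le_rfl) k
    rw [hist_getD, if_pos (by omega)]

theorem avoid {J X : Type} [LinearOrder J] [WellFoundedLT J] (hJ : ∀ i : J, #(Iio i) < #X)
    (hX : ℵ₀ < #X) (B : J → X → Set X) (hB : ∀ i x, (B i x).Countable) :
    ∃ b : J → X, ∀ i j, j < i → b i ∉ B j (b j) := by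
  classical
  have step : ∀ (i : J) (g : Iio i → X), ∃ x, ∀ j : Iio i, x ∉ B j (g j) := by
    intro i g
    by_contra hc
    push Not at hc
    have h1 : (⋃ j : Iio i, B j (g j)) = Set.univ := eq_univ_of_forall fun x => mem_iUnion.2 (hc x)
    have h2 : #(⋃ j : Iio i, B j (g j)) < #X := by
      refine (mk_iUnion_le_sum_mk.trans (sum_le_sum _ (fun _ => ℵ₀) fun j =>
        le_aleph0_iff_set_countable.2 (hB _ _))).trans_lt ?_
      rw [sum_const']
      exact mul_lt_of_lt hX.le (hJ i) hX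
    rw [h1, mk_univ] at h2
    exact lt_irrefl _ h2
  choose G hG using step
  let b : J → X := (wellFounded_lt (α := J)).fix fun i g => G i fun j => g j.1 j.2
  refine ⟨b, fun i j hj => ?_⟩
  have : b i = G i fun j => b j.1 := WellFounded.fix_eq _ _ _
  rw [this]
  exact hG i (fun j => b j.1) ⟨j, hj⟩

theorem shifts (a : ℕ → ℕ) : {c : ℕ → ℕ | ∃ m, ∀ n ≥ m, c n = a (n + 1)}.Countable := by
  refine (countable_range fun l : List ℕ => fun n => l.getD n (a (n + 1))).mono ?_
  rintro c ⟨m, hm⟩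
  refine ⟨hist c m, funext fun n => ?_⟩
  simp only [hist_getD]
  split_ifs with h
  · rfl
  · exact (hm n (by omega)).symm

theorem labels (K : Type) (hK : ℵ₀ < #K) : ∃ l : K → ℕ → ℕ, ¬ (range l).Countable := by
  rcases le_total #K #(ℕ → ℕ) with h | h
  · obtain ⟨e⟩ := (Cardinal.le_def _ _).1 h
    refine ⟨e, fun hc => ?_⟩
    rw [← le_aleph0_iff_set_countable, mk_range_eq _ e.injective] at hc
    exact absurd hc (not_le.2 hK)
  · obtain ⟨e⟩ := (Cardinal.le_def _ _).1 h
    refine ⟨Function.invFun e, fun hc => ?_⟩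
    rw [(Function.invFun_surjective e.injective).range_eq, ← le_aleph0_iff_set_countable,
      mk_univ] at hc
    simp at hc
    exact absurd hc (not_le.2 aleph0_lt_continuum)

theorem result : ∃ S : Set (ℕ → ℕ), (∀ K : Type, ℵ₀ < #K → OneWins S K) ∧
    (∀ K : Type, #K = 2 ^ ℵ₀ → Determined S K) ∧ ∀ K : Type, #K = ℵ₀ → ¬ Determined S K := by
  classical
  have hX : #(ℕ → ℕ) = 𝔠 := by simp
  obtain ⟨J, e, _, _, hJ⟩ : ∃ (J : Type) (_ : J ≃ (List ℕ → ℕ → ℕ)) (_ : LinearOrder J)
      (_ : WellFoundedLT J), ∀ i : J, #(Iio i) < #(ℕ → ℕ) := by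
    have h1 : #(List ℕ → ℕ → ℕ) = 𝔠 := by simp
    obtain ⟨e⟩ : Nonempty ((continuum.{0}).ord.ToType ≃ (List ℕ → ℕ → ℕ)) := by
      rw [← Cardinal.eq, h1, mk_ord_toType]
    exact ⟨_, e, inferInstance, inferInstance, fun i => by
      rw [hX]; exact mk_Iio_toType_ord_lt i⟩
  obtain ⟨b, hb⟩ := avoid hJ (hX ▸ aleph0_lt_continuum)
    (fun i x => insert x (⋃ k, {c : ℕ → ℕ | ∃ m, ∀ n ≥ m, c n = e i (hist x (n + 1)) k}))
    (fun i x => (countable_iUnion fun k => shifts fun n => e i (hist x n) k).insert x)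
  let S : Set (ℕ → ℕ) :=
    {p | ¬ ∃ i k, (∀ n, p (2 * n + 1) = b i n) ∧ ∀ n, p (2 * n) = e i (hist (b i) n) k}
  have hbi : Function.Injective b := fun i j hij => by
    rcases lt_trichotomy i j with h | h | h
    · exact absurd (Or.inl hij.symm) (hb j i h)
    · exact h
    · exact absurd (Or.inl hij) (hb i j h)
  have hone : ∀ K : Type, ℵ₀ < #K → OneWins S K := by
    intro K hK
    obtain ⟨l, hl⟩ := labels K hK
    have hg : ∀ (φ : K → ℕ) (α : K), ∃ β, (∃ β γ, φ β ≠ φ γ) → φ β ≠ φ α := by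
      intro φ α
      by_cases h : ∃ β, φ β ≠ φ α
      · exact ⟨h.choose, fun _ => h.choose_spec⟩
      · push Not at h
        exact ⟨α, fun ⟨β, γ, h'⟩ => absurd ((h β).trans (h γ).symm) h'⟩
    choose g hg using hg
    let P : (ℕ → K → ℕ) → Set ℕ := fun φ => {m | ∃ β γ, φ (2 * m + 1) β ≠ φ (2 * m + 1) γ}
    refine ⟨fun h α => if (P fun j => h.getD j 0).Nonempty then
      h.getD (h.length - 1) 0 (g (h.getD (2 * sInf (P fun j => h.getD j 0) + 1) 0) α)
      else l α (h.length / 2), fun f hf => ?_⟩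
    have hP : ∀ n m, m ∈ (P fun j => (hist f (2 * n)).getD j 0) ↔ m < n ∧ m ∈ P f := by
      intro n m
      simp only [P, mem_setOf_eq, hist_getD]
      by_cases h : m < n
      · simp [h, show 2 * m + 1 < 2 * n by omega]
      · simp [h, show ¬ 2 * m + 1 < 2 * n by omega]
    by_contra hc
    simp only [S, mem_setOf_eq, not_exists, not_forall, not_not] at hc
    choose ξ k h1 h2 using hc
    by_cases hne : (P f).Nonempty
    · have hm := Nat.sInf_mem hne
      set m := sInf (P f) with hmdef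
      have h3 : ∀ n ≥ m, ∀ α, f (2 * (n + 1)) α = f (2 * n + 1) (g (f (2 * m + 1)) α) := by
        intro n hn α
        have h4 : sInf (P fun j => (hist f (2 * (n + 1))).getD j 0) = m := by
          refine le_antisymm (Nat.sInf_le ((hP _ _).2 ⟨by omega, hm⟩)) ?_
          exact Nat.sInf_le ((hP _ _).1 (Nat.sInf_mem ⟨m, (hP _ _).2 ⟨by omega, hm⟩⟩)).2
        rw [hf]
        simp only [h4]
        rw [if_pos ⟨m, (hP _ _).2 ⟨by omega, hm⟩⟩, hist_len, hist_getD, hist_getD,
          if_pos (by omega), if_pos (by omega)]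
        rfl
      obtain ⟨β0, -⟩ := id hm
      obtain ⟨_, ⟨α, rfl⟩, hα⟩ := wellFounded_lt.has_min (range ξ) ⟨_, β0, rfl⟩
      set β := g (f (2 * m + 1)) α
      have h5 : f (2 * m + 1) β ≠ f (2 * m + 1) α := hg _ α hm
      rcases lt_trichotomy (ξ α) (ξ β) with h | h | h
      · refine hb _ _ h (Or.inr (mem_iUnion.2 ⟨k α, m, fun n hn => ?_⟩))
        rw [← h2, h3 n hn, h1]
      · rw [h1, h1, h] at h5
        exact h5 rfl
      · exact hα _ ⟨β, rfl⟩ h
    · have h3 : ∀ n α, f (2 * n) α = l α n := by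
        intro n α
        rw [hf]
        simp only
        rw [if_neg (fun ⟨m, hm⟩ => hne ⟨m, ((hP _ _).1 hm).2⟩), hist_len]
        simp
      have h4 : ∀ α β, ξ α = ξ β := fun α β => hbi (funext fun n => by
        rw [← h1, ← h1]
        by_contra h
        exact hne ⟨n, α, β, h⟩)
      have : Nonempty K := by rw [← mk_ne_zero_iff]; exact (aleph0_pos.trans hK).ne'
      refine hl ((countable_range fun k n => e (ξ this.some) (hist (b (ξ this.some)) n) k).mono ?_)
      rintro _ ⟨α, rfl⟩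
      exact ⟨k α, funext fun n => by rw [← h3, h2, h4 α this.some]⟩
  refine ⟨S, hone, fun K hK => Or.inl (hone K (hK ▸ cantor _)), fun K hK => ?_⟩
  obtain ⟨d⟩ : Nonempty (K ≃ ℕ) := by rw [← Cardinal.eq, hK, mk_nat]
  rintro (⟨σ, hσ⟩ | h)
  · let H : List ℕ → List (K → ℕ) := fun l =>
      l.foldl (fun h x => h ++ [σ h] ++ [fun _ => x]) []
    obtain ⟨i, hi⟩ := e.surjective fun l k => σ (H l) (d.symm k)
    obtain ⟨f, hf1, hf2⟩ := exists_play2 σ fun h _ => b i (h.length / 2)
    have h1 : ∀ n, f (2 * n + 1) = fun _ => b i n := fun n => by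
      rw [hf2, hist_len, show (2 * n + 1) / 2 = n by omega]
    have h2 : ∀ n, hist f (2 * n) = H (hist (b i) n) := by
      intro n
      induction n with
      | zero => rfl
      | succ n ih =>
        rw [show 2 * (n + 1) = 2 * n + 1 + 1 by ring, hist_succ, hist_succ, hist_succ, h1, hf1, ih]
        simp only [H, List.foldl_append, List.foldl_cons, List.foldl_nil]
    obtain ⟨α, hα⟩ := hσ f hf1
    refine hα ⟨i, d α, fun n => by simp only [h1], fun n => ?_⟩
    simp only [hi, hf1, h2, Equiv.symm_apply_apply]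
  · obtain ⟨τ, hτ⟩ := two_transfer (d.symm 0) h (ℕ → ℕ)
    obtain ⟨σ, hσ⟩ := hone (ℕ → ℕ) (hX ▸ aleph0_lt_continuum)
    obtain ⟨f, hf1, hf2⟩ := exists_play2 σ τ
    exact hτ f hf2 (hσ f hf1)

end Pool.Agent.Results.MP_801c54_lc.Boards
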